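import Pool.Agent.Helper10.V2.Defs
import Pool.Agent.Helper10.TR.RedImp
import Pool.Agent.Helper11.TR.RU
import Pool.Agent.Helper26.OS.Fin

/-!
# V2, block S: periodic residues fixed by Frobenius do not lie on the members of the family
-/

set_option autoImplicit false

namespace Pool.Agent.Helper11.V2

open MvPolynomial Pool.Agent.Helper61.TH Pool.Agent.Helper87.FK Pool.Agent.Helper26.OB Pool.Agent.Helper10.TR
open Pool.Agent.Helper10.V2 (On Fam)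
open Pool.Agent.Helper11.TR (rd_frob finite_wit closedR algR coeffs_mulR coeffs_prodR)

noncomputable section

variable {m : ℕ}

/-- the coefficients -/
def cf (h : MvPolynomial (Fin m) ℂ) : Finset ℂ := h.support.image fun u => coeff u h

theorem cf_or (h : MvPolynomial (Fin m) ℂ) (u : Fin m →₀ ℕ) : coeff u h = 0 ∨ coeff u h ∈ cf h := by
  by_cases h0 : coeff u h = 0
  · exact Or.inl h0
  · exact Or.inr (Finset.mem_image.2 ⟨u, mem_support_iff.2 h0, rfl⟩)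

theorem cf_int {p : ℕ} [Fact p.Prime] (τ : ℂ →+* PadicAlgCl p) (h : MvPolynomial (Fin m) ℂ) (hz : ∀ z ∈ cf h, ‖τ z‖ ≤ 1)
    (u : Fin m →₀ ℕ) : ‖τ (coeff u h)‖ ≤ 1 := by
  rcases cf_or h u with h0 | h0
  · rw [h0, map_zero, norm_zero]
    exact zero_le_one
  · exact hz _ h0

theorem cf_mem {A : Subfield ℂ} {h : MvPolynomial (Fin m) ℂ} (hA : ∀ u, coeff u h ∈ A) : ∀ z ∈ cf h, z ∈ A := by
  intro z hz
  obtain ⟨u, -, rfl⟩ := Finset.mem_image.1 hz
  exact hA u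

/-- the periodic orbit -/
structure Orb (B : Set (MvPolynomial (Fin m) ℂ)) (D : Finset (MvPolynomial (Fin m) ℂ))
    (F : Fin m → MvPolynomial (Fin m) ℂ) {p : ℕ} [Fact p.Prime] (τ : ℂ →+* PadicAlgCl p) (t : ℕ → Fin m → ℂ) (c : ℕ) :
    Prop where
  step : ∀ k, t (k + 1) = ev F (t k)
  onB : ∀ k, ∀ g ∈ B, eval (t k) g = 0
  int : ∀ k i, ‖τ (t k i)‖ ≤ 1
  unitD : ∀ k, ∃ g ∈ D, ‖τ (eval (t k) g)‖ = 1
  frob : ∀ k i, ‖(τ (t k i)) ^ p - τ (t k i)‖ < 1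
  pos : 1 ≤ c
  per : ∀ k i, ‖τ (t (k + c) i) - τ (t k i)‖ < 1

/-- the statement for one closed set -/
def PU (A : Subfield ℂ) (s : ℂ →+* ℂ) (B : Set (MvPolynomial (Fin m) ℂ)) (D : Finset (MvPolynomial (Fin m) ℂ))
    (F : Fin m → MvPolynomial (Fin m) ℂ) (Z : Set (MvPolynomial (Fin m) ℂ)) : Prop :=
  ∃ (H : Finset (MvPolynomial (Fin m) ℂ)) (S : Finset ℂ), (∀ h ∈ H, h ∈ Z) ∧ (∀ z ∈ S, z ∈ A) ∧
    ∀ (p : ℕ) [Fact p.Prime] (τ : ℂ →+* PadicAlgCl p), Un τ S → FrobPlus s τ S →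
      ∀ (t : ℕ → Fin m → ℂ) (c : ℕ), Orb B D F τ t c → ∀ k, ∃ h ∈ H, ‖τ (eval (t k) h)‖ = 1

theorem unM {p : ℕ} [Fact p.Prime] {τ : ℂ →+* PadicAlgCl p} {Z Z' : Finset ℂ} (hU : Un τ Z') (h : Z ⊆ Z') : Un τ Z :=
  fun z hz => hU z (h hz)

theorem fpM {p : ℕ} [Fact p.Prime] {τ : ℂ →+* PadicAlgCl p} {s : ℂ →+* ℂ} {Z Z' : Finset ℂ} (hU : FrobPlus s τ Z')
    (h : Z ⊆ Z') : FrobPlus s τ Z := by
  intro l
  obtain ⟨k, hk⟩ := hU l
  exact ⟨k, fun z hz => hk z (h hz)⟩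

theorem pu_of {A : Subfield ℂ} {s : ℂ →+* ℂ} {B : Set (MvPolynomial (Fin m) ℂ)} {D : Finset (MvPolynomial (Fin m) ℂ)}
    {F : Fin m → MvPolynomial (Fin m) ℂ} {Z : Set (MvPolynomial (Fin m) ℂ)} (hZ : ∀ h ∈ Z, ∀ u, coeff u h ∈ A)
    (H : Finset (MvPolynomial (Fin m) ℂ)) (S : Finset ℂ) (hH : ∀ h ∈ H, h ∈ Z) (hS : ∀ z ∈ S, z ∈ A)
    (h : ∀ (p : ℕ) [Fact p.Prime] (τ : ℂ →+* PadicAlgCl p), Un τ S → FrobPlus s τ S →
      (∀ h ∈ H, ∀ u, ‖τ (coeff u h)‖ ≤ 1) →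
      ∀ (t : ℕ → Fin m → ℂ) (c : ℕ), Orb B D F τ t c → ∀ k, (∀ h ∈ H, ‖τ (eval (t k) h)‖ < 1) → False) :
    PU A s B D F Z := by
  classical
  refine ⟨H, S ∪ H.biUnion cf, hH, ?_, ?_⟩
  · intro z hz
    rcases Finset.mem_union.1 hz with hz | hz
    · exact hS z hz
    · obtain ⟨h, hh, hz⟩ := Finset.mem_biUnion.1 hz
      exact cf_mem (hZ h (hH h hh)) z hz
  · intro p _ τ hUn hFr t c hO k
    by_contra hcon
    push Not at hcon
    have hint : ∀ h ∈ H, ∀ u, ‖τ (coeff u h)‖ ≤ 1 := fun h hh => cf_int τ h fun z hz =>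
      (hUn z (Finset.mem_union_right _ (Finset.mem_biUnion.2 ⟨h, hh, hz⟩))).1
    refine h p τ (unM hUn Finset.subset_union_left) (fpM hFr Finset.subset_union_left) hint t c hO k fun h' hh' => ?_
    exact lt_of_le_of_ne (rd_eval τ h' (hint h' hh') _ (hO.int k)).1 (hcon h' hh')

/-- reduction of implications on `X` -/
theorem red_impD (A : Subfield ℂ) (hA : ∀ z : ℂ, IsAlgebraic A z → z ∈ A)
    (B : Set (MvPolynomial (Fin m) ℂ)) (hB : ∀ g ∈ B, ∀ u, coeff u g ∈ A) (D : Finset (MvPolynomial (Fin m) ℂ))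
    (hD : ∀ g ∈ D, ∀ u, coeff u g ∈ A) (S : Set (MvPolynomial (Fin m) ℂ)) (hS : ∀ q ∈ S, ∀ u, coeff u q ∈ A)
    (U : Finset (MvPolynomial (Fin m) ℂ)) (hU : ∀ g ∈ U, ∀ u, coeff u g ∈ A)
    (h0 : ∀ y : Fin m → ℂ, InX B ↑D y → On S y → ∀ u ∈ U, eval y u = 0) :
    ∃ (Q : Finset (MvPolynomial (Fin m) ℂ)) (Z : Finset ℂ), (∀ q ∈ Q, q ∈ S) ∧ (∀ z ∈ Z, z ∈ A) ∧
      ∀ (p : ℕ) [Fact p.Prime] (τ : ℂ →+* PadicAlgCl p), Un τ Z → ∀ y : Fin m → ℂ, (∀ g ∈ B, eval y g = 0) →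
        (∀ v, ‖τ (y v)‖ ≤ 1) → (∃ g ∈ D, ‖τ (eval y g)‖ = 1) → (∀ q ∈ Q, ‖τ (eval y q)‖ < 1) →
          ∀ u ∈ U, ‖τ (eval y u)‖ < 1 := by
  classical
  obtain ⟨T, hT⟩ : ∃ T : Set (MvPolynomial (Fin m) ℂ), ∀ q, q ∈ T ↔ q ∈ B ∨ q ∈ S := ⟨{q | q ∈ B ∨ q ∈ S}, fun q => Iff.rfl⟩
  have hTA : ∀ q ∈ T, ∀ u, coeff u q ∈ A := by
    intro q hq
    rcases (hT q).1 hq with hq | hq
    · exact hB q hq
    · exact hS q hq
  have h1 : ∀ g ∈ D, ∀ u ∈ U, ∀ y : Fin m → ℂ, (∀ q ∈ T, eval y q = 0) → eval y (g * u) = 0 := by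
    intro g hg u hu y hy
    rw [map_mul]
    by_cases hne : eval y g = 0
    · rw [hne, zero_mul]
    · rw [h0 y ⟨fun q hq => hy q ((hT q).2 (Or.inl hq)), g, hg, hne⟩ (fun q hq => hy q ((hT q).2 (Or.inr hq))) u hu, mul_zero]
  have h2 : ∀ a : D × U, ∃ (Q : Finset (MvPolynomial (Fin m) ℂ)) (Z : Finset ℂ), (∀ q ∈ Q, q ∈ T) ∧ (∀ z ∈ Z, z ∈ A) ∧
      ∀ (p : ℕ) [Fact p.Prime] (τ : ℂ →+* PadicAlgCl p), Un τ Z → ∀ y : Fin m → ℂ, (∀ v, ‖τ (y v)‖ ≤ 1) →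
        (∀ q ∈ Q, ‖τ (eval y q)‖ < 1) → ‖τ (eval y (a.1.1 * a.2.1))‖ < 1 := fun a =>
    red_imp A hA T hTA (a.1.1 * a.2.1) (coeffs_mulR A (hD a.1.1 a.1.2) (hU a.2.1 a.2.2)) (h1 a.1.1 a.1.2 a.2.1 a.2.2)
  choose Q Z hQ hZ hred using h2
  refine ⟨((Finset.univ : Finset (D × U)).biUnion Q).filter (· ∈ S), (Finset.univ : Finset (D × U)).biUnion Z, ?_, ?_, ?_⟩
  · intro q hq
    exact (Finset.mem_filter.1 hq).2
  · intro z hz
    obtain ⟨a, -, hz⟩ := Finset.mem_biUnion.1 hz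
    exact hZ a z hz
  · intro p _ τ hUn y hyB hy ⟨g, hg, hgu⟩ hq u hu
    have h3 := hred (⟨g, hg⟩, ⟨u, hu⟩) p τ (unM hUn (Finset.subset_biUnion_of_mem Z (Finset.mem_univ _))) y hy (by
      intro q hq'
      by_cases hqS : q ∈ S
      · exact hq q (Finset.mem_filter.2 ⟨Finset.mem_biUnion.2 ⟨(⟨g, hg⟩, ⟨u, hu⟩), Finset.mem_univ _, hq'⟩, hqS⟩)
      · rcases (hT q).1 (hQ _ q hq') with h4 | h4
        · rw [hyB q h4, map_zero, norm_zero]
          exact zero_lt_one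
        · exact absurd h4 hqS)
    change ‖τ (eval y (g * u))‖ < 1 at h3
    rwa [map_mul, map_mul, norm_mul, hgu, one_mul] at h3

/-- small values at congruent points -/
theorem small_congr {p : ℕ} [Fact p.Prime] (τ : ℂ →+* PadicAlgCl p) (h : MvPolynomial (Fin m) ℂ)
    (hh : ∀ u, ‖τ (coeff u h)‖ ≤ 1) (y z : Fin m → ℂ) (hy : ∀ i, ‖τ (y i)‖ ≤ 1) (hz : ∀ i, ‖τ (z i)‖ ≤ 1)
    (hyz : ∀ i, ‖τ (y i) - τ (z i)‖ < 1) (h0 : ‖τ (eval z h)‖ < 1) : ‖τ (eval y h)‖ < 1 := by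
  have h1 : (fun i => rd τ (y i)) = fun i => rd τ (z i) := by
    funext i
    have := Pool.Agent.Helper11.TR.rd_pow_eqR τ (hy i) (hz i) (n := 1) (by rw [pow_one]; exact hyz i)
    rwa [pow_one] at this
  obtain ⟨h2, h3⟩ := rd_eval τ h hh y hy
  obtain ⟨h4, h5⟩ := rd_eval τ h hh z hz
  refine (rd_eq_zero τ h2).1 ?_
  rw [h3, h1, ← h5]
  exact (rd_eq_zero τ h0.le).2 h0

theorem eval_comp (F : Fin m → MvPolynomial (Fin m) ℂ) (h : MvPolynomial (Fin m) ℂ) (y : Fin m → ℂ) :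
    eval y (bind₁ F h) = eval (ev F y) h := by
  rw [eval, eval₂Hom_bind₁]
  rfl

theorem coeff_comp (A : Subfield ℂ) (F : Fin m → MvPolynomial (Fin m) ℂ) (hF : ∀ i u, coeff u (F i) ∈ A)
    (h : MvPolynomial (Fin m) ℂ) (hh : ∀ u, coeff u h ∈ A) : ∀ u, coeff u (bind₁ F h) ∈ A := by
  obtain ⟨h', rfl⟩ := Pool.Agent.Helper26.OS.exists_map98 A h hh
  choose F' hF' using fun i => Pool.Agent.Helper26.OS.exists_map98 A (F i) (hF i)
  have h1 : bind₁ F (map A.subtype h') = map A.subtype (bind₁ F' h') := by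
    rw [map_bind₁]
    congr 2
    funext i
    exact (hF' i).symm
  intro u
  rw [h1, coeff_map]
  exact (coeff u (bind₁ F' h')).2

theorem pow_memA {A : Subfield ℂ} {s : ℂ →+* ℂ} (hs : ∀ z ∈ A, s z ∈ A) (j : ℕ) : ∀ z ∈ A, (s ^ j) z ∈ A := by
  induction j with
  | zero =>
    intro z hz
    rw [pow_zero]
    exact hz
  | succ j ih =>
    intro z hz
    rw [pow_succ']
    exact hs _ (ih z hz)

theorem fam_pu (A : Subfield ℂ) (hA' : ∀ z : ℂ, IsAlgebraic A z → z ∈ A) (s : ℂ →+* ℂ) (hs : ∀ z ∈ A, s z ∈ A)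
    (B : Set (MvPolynomial (Fin m) ℂ)) (hB : ∀ g ∈ B, ∀ u, coeff u g ∈ A) (D : Finset (MvPolynomial (Fin m) ℂ))
    (hD : ∀ g ∈ D, ∀ u, coeff u g ∈ A) (F : Fin m → MvPolynomial (Fin m) ℂ) (hF : ∀ i u, coeff u (F i) ∈ A)
    (Z : Set (MvPolynomial (Fin m) ℂ)) (hZ : Fam A s F B ↑D Z) :
    (∀ h ∈ Z, ∀ u, coeff u h ∈ A) ∧ PU A s B D F Z := by
  classical
  induction hZ with
  | union Z k C hZ hC h ih =>
    have hZA : ∀ h ∈ Z, ∀ u, coeff u h ∈ A := hZ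
    refine ⟨hZA, ?_⟩
    have hCA := fun i => (ih i).1
    choose H S hH hS hu using fun i => (ih i).2
    obtain ⟨Q, Z1, hQ, hZ1, hred⟩ := red_impD A hA' B hB D hD Z hZA
      ((Fintype.piFinset H).image fun η => ∏ i, η i) (by
        intro g hg
        obtain ⟨η, hη, rfl⟩ := Finset.mem_image.1 hg
        exact coeffs_prodR A _ _ fun i _ => hCA i _ (hH i _ (Fintype.mem_piFinset.1 hη i))) (by
        intro y hy hyZ g hg
        obtain ⟨η, hη, rfl⟩ := Finset.mem_image.1 hg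
        obtain ⟨i, hi⟩ := h y hy hyZ
        rw [map_prod]
        exact Finset.prod_eq_zero (Finset.mem_univ i) (hi _ (hH i _ (Fintype.mem_piFinset.1 hη i))))
    refine pu_of hZA Q (Z1 ∪ (Finset.univ : Finset (Fin k)).biUnion S) hQ ?_ ?_
    · intro z hz
      rcases Finset.mem_union.1 hz with hz | hz
      · exact hZ1 z hz
      · obtain ⟨i, -, hz⟩ := Finset.mem_biUnion.1 hz
        exact hS i z hz
    · intro p _ τ hUn hFr _ t c hO k' hsm
      have hsub : ∀ i, S i ⊆ Z1 ∪ (Finset.univ : Finset (Fin k)).biUnion S := fun i =>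
        (Finset.subset_biUnion_of_mem S (Finset.mem_univ i)).trans Finset.subset_union_right
      choose η hη hη1 using fun i => hu i p τ (unM hUn (hsub i)) (fpM hFr (hsub i)) t c hO k'
      have h3 := hred p τ (unM hUn Finset.subset_union_left) (t k') (hO.onB k') (hO.int k') (hO.unitD k') hsm
        (∏ i, η i) (Finset.mem_image.2 ⟨η, Fintype.mem_piFinset.2 hη, rfl⟩)
      rw [map_prod, map_prod, norm_prod, Finset.prod_congr rfl (fun i _ => hη1 i), Finset.prod_const_one] at h3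
      exact lt_irrefl _ h3
  | conj Z W hZ hW h ih =>
    have hZA : ∀ h ∈ Z, ∀ u, coeff u h ∈ A := hZ
    refine ⟨hZA, ?_⟩
    obtain ⟨hWA, H, S, hH, hS, hu⟩ := ih
    obtain ⟨T, hT⟩ : ∃ T : Set (MvPolynomial (Fin m) ℂ), ∀ q, q ∈ T ↔ ∃ h ∈ Z, ∃ j : ℕ, q = map (s ^ j) h :=
      ⟨{q | ∃ h ∈ Z, ∃ j : ℕ, q = map (s ^ j) h}, fun q => Iff.rfl⟩
    obtain ⟨Q, Z1, hQ, hZ1, hred⟩ := red_impD A hA' B hB D hD T (by
        intro q hq u
        obtain ⟨h, hh, j, rfl⟩ := (hT q).1 hq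
        rw [coeff_map]
        exact pow_memA hs j _ (hZ h hh u)) H (fun g hg => hWA g (hH g hg)) (by
        intro y hy hyT g hg
        exact h y hy (fun j h' hh' => hyT _ ((hT _).2 ⟨h', hh', j, rfl⟩)) g (hH g hg))
    obtain ⟨H', hH'Z, hH'⟩ := finite_wit Z (fun _ => False) (fun h q => ∃ j : ℕ, q = map (s ^ j) h) Q
      fun q hq => Or.inr ((hT q).1 (hQ q hq))
    refine pu_of hZA H' (Z1 ∪ S ∪ H'.biUnion cf) hH'Z ?_ ?_
    · intro z hz
      rcases Finset.mem_union.1 hz with hz | hz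
      · rcases Finset.mem_union.1 hz with hz | hz
        · exact hZ1 z hz
        · exact hS z hz
      · obtain ⟨h, hh, hz⟩ := Finset.mem_biUnion.1 hz
        exact cf_mem (hZA h (hH'Z h hh)) z hz
    · intro p _ τ hUn hFr hint t c hO k' hsm
      obtain ⟨w, hw, hw1⟩ := hu p τ (unM hUn (Finset.subset_union_right.trans Finset.subset_union_left))
        (fpM hFr (Finset.subset_union_right.trans Finset.subset_union_left)) t c hO k'
      have h3 := hred p τ (unM hUn (Finset.subset_union_left.trans Finset.subset_union_left)) (t k') (hO.onB k') (hO.int k')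
        (hO.unitD k') (by
          intro q hq
          rcases hH' q hq with h4 | ⟨h, hh, j, rfl⟩
          · exact h4.elim
          · obtain ⟨l, hl⟩ := hFr j
            have h' : ∀ u, ‖τ (coeff u (map (s ^ j) h))‖ ≤ 1 ∧
                ‖(τ (coeff u h)) ^ p ^ l - τ (coeff u (map (s ^ j) h))‖ < 1 := by
              intro u
              rw [coeff_map]
              rcases cf_or h u with h0 | h0
              · rw [h0, map_zero, map_zero, norm_zero, zero_pow (pow_ne_zero _ (Fact.out : p.Prime).ne_zero), sub_zero,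
                  norm_zero]
                exact ⟨zero_le_one, zero_lt_one⟩
              · exact hl _ (Finset.mem_union_right _ (Finset.mem_biUnion.2 ⟨h, hh, h0⟩))
            have h5 := rd_frob τ h (map (s ^ j) h) l (t k') (hO.int k') (hO.frob k') (hint h hh) h'
            rw [(rd_eq_zero τ (hsm h hh).le).2 (hsm h hh), zero_pow (pow_ne_zero _ (Fact.out : p.Prime).ne_zero)] at h5
            exact (rd_eq_zero τ (rd_eval τ _ (fun u => (h' u).1) _ (hO.int k')).1).1 h5) w hw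
      exact h3.ne hw1
  | image Z W hZ hW h ih =>
    have hZA : ∀ h ∈ Z, ∀ u, coeff u h ∈ A := hZ
    refine ⟨hZA, ?_⟩
    obtain ⟨hWA, H, S, hH, hS, hu⟩ := ih
    obtain ⟨Q, Z1, hQ, hZ1, hred⟩ := red_impD A hA' B hB D hD Z hZA (H.image fun w => bind₁ F w) (by
        intro g hg
        obtain ⟨w, hw, rfl⟩ := Finset.mem_image.1 hg
        exact coeff_comp A F hF w (hWA w (hH w hw))) (by
        intro y hy hyZ g hg
        obtain ⟨w, hw, rfl⟩ := Finset.mem_image.1 hg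
        rw [eval_comp]
        exact h y hy hyZ w (hH w hw))
    refine pu_of hZA Q (Z1 ∪ S) hQ ?_ ?_
    · intro z hz
      rcases Finset.mem_union.1 hz with hz | hz
      · exact hZ1 z hz
      · exact hS z hz
    · intro p _ τ hUn hFr _ t c hO k' hsm
      obtain ⟨w, hw, hw1⟩ := hu p τ (unM hUn Finset.subset_union_right) (fpM hFr Finset.subset_union_right) t c hO (k' + 1)
      have h3 := hred p τ (unM hUn Finset.subset_union_left) (t k') (hO.onB k') (hO.int k') (hO.unitD k') hsm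
        (bind₁ F w) (Finset.mem_image.2 ⟨w, hw, rfl⟩)
      rw [eval_comp, ← hO.step k'] at h3
      exact h3.ne hw1
  | preimage Z W hZ hW h ih =>
    have hZA : ∀ h ∈ Z, ∀ u, coeff u h ∈ A := hZ
    refine ⟨hZA, ?_⟩
    obtain ⟨hWA, H, S, hH, hS, hu⟩ := ih
    obtain ⟨T, hT⟩ : ∃ T : Set (MvPolynomial (Fin m) ℂ), ∀ q, q ∈ T ↔ ∃ h ∈ Z, q = bind₁ F h :=
      ⟨{q | ∃ h ∈ Z, q = bind₁ F h}, fun q => Iff.rfl⟩
    obtain ⟨Q, Z1, hQ, hZ1, hred⟩ := red_impD A hA' B hB D hD T (by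
        intro q hq
        obtain ⟨h, hh, rfl⟩ := (hT q).1 hq
        exact coeff_comp A F hF h (hZA h hh)) H (fun g hg => hWA g (hH g hg)) (by
        intro y hy hyT g hg
        refine h y hy (fun h' hh' => ?_) g (hH g hg)
        rw [← eval_comp]
        exact hyT _ ((hT _).2 ⟨h', hh', rfl⟩))
    obtain ⟨H', hH'Z, hH'⟩ := finite_wit Z (fun _ => False) (fun h q => q = bind₁ F h) Q
      fun q hq => Or.inr ((hT q).1 (hQ q hq))
    refine pu_of hZA H' (Z1 ∪ S) hH'Z ?_ ?_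
    · intro z hz
      rcases Finset.mem_union.1 hz with hz | hz
      · exact hZ1 z hz
      · exact hS z hz
    · intro p _ τ hUn hFr hint t c hO k' hsm
      obtain ⟨c', rfl⟩ : ∃ c', c = c' + 1 := ⟨c - 1, by have := hO.pos; omega⟩
      obtain ⟨w, hw, hw1⟩ := hu p τ (unM hUn Finset.subset_union_right) (fpM hFr Finset.subset_union_right) t _ hO (k' + c')
      have h3 := hred p τ (unM hUn Finset.subset_union_left) (t (k' + c')) (hO.onB _) (hO.int _) (hO.unitD _) (by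
          intro q hq
          rcases hH' q hq with h4 | ⟨h, hh, rfl⟩
          · exact h4.elim
          · rw [eval_comp, ← hO.step]
            exact small_congr τ h (hint h hh) _ _ (hO.int _) (hO.int k') (hO.per k') (hsm h hh)) w hw
      exact h3.ne hw1
  | invariant Z Y W hZ hY hW h1 h2 ih =>
    have hZA : ∀ h ∈ Z, ∀ u, coeff u h ∈ A := hZ
    have hYA : ∀ h ∈ Y, ∀ u, coeff u h ∈ A := hY
    refine ⟨hZA, ?_⟩
    obtain ⟨hWA, H, S, hH, hS, hu⟩ := ih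
    obtain ⟨Y₀, hY₀, hYY⟩ := Pool.Agent.Helper26.OS.fin_eqs Y
    have hY₀A : ∀ h ∈ Y₀, ∀ u, coeff u h ∈ A := fun h hh => hYA h (hY₀ h hh)
    have hUA : ∀ g ∈ Y₀.image fun w => bind₁ F w, ∀ u, coeff u g ∈ A := by
      intro g hg
      obtain ⟨w, hw, rfl⟩ := Finset.mem_image.1 hg
      exact coeff_comp A F hF w (hY₀A w hw)
    obtain ⟨Q1, Z1, hQ1, hZ1, hred1⟩ := red_impD A hA' B hB D hD Z hZA (Y₀.image fun w => bind₁ F w) hUA (by
        intro y hy hyZ g hg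
        obtain ⟨w, hw, rfl⟩ := Finset.mem_image.1 hg
        rw [eval_comp]
        exact h1 y hy (Or.inl hyZ) w (hY₀ w hw))
    obtain ⟨Q2, Z2, hQ2, hZ2, hred2⟩ := red_impD A hA' B hB D hD (↑Y₀) hY₀A (Y₀.image fun w => bind₁ F w) hUA (by
        intro y hy hyY g hg
        obtain ⟨w, hw, rfl⟩ := Finset.mem_image.1 hg
        rw [eval_comp]
        exact h1 y hy (Or.inr ((hYY y).2 hyY)) w (hY₀ w hw))
    obtain ⟨T, hT⟩ : ∃ T : Set (MvPolynomial (Fin m) ℂ), ∀ q, q ∈ T ↔ q ∈ Z ∨ q ∈ Y₀ :=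
      ⟨{q | q ∈ Z ∨ q ∈ Y₀}, fun q => Iff.rfl⟩
    obtain ⟨Q3, Z3, hQ3, hZ3, hred3⟩ := red_impD A hA' B hB D hD T (by
        intro q hq
        rcases (hT q).1 hq with hq | hq
        · exact hZA q hq
        · exact hY₀A q hq) H (fun g hg => hWA g (hH g hg)) (by
        intro y hy hyT g hg
        exact h2 y hy (fun h' hh' => hyT _ ((hT _).2 (Or.inl hh')))
          ((hYY y).2 fun h' hh' => hyT _ ((hT _).2 (Or.inr hh'))) g (hH g hg))
    refine pu_of hZA (Q1 ∪ Q3.filter (· ∈ Z)) (Z1 ∪ Z2 ∪ Z3 ∪ S ∪ Y₀.biUnion cf) ?_ ?_ ?_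
    · intro q hq
      rcases Finset.mem_union.1 hq with hq | hq
      · exact hQ1 q hq
      · exact (Finset.mem_filter.1 hq).2
    · intro z hz
      rcases Finset.mem_union.1 hz with hz | hz
      · rcases Finset.mem_union.1 hz with hz | hz
        · rcases Finset.mem_union.1 hz with hz | hz
          · rcases Finset.mem_union.1 hz with hz | hz
            · exact hZ1 z hz
            · exact hZ2 z hz
          · exact hZ3 z hz
        · exact hS z hz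
      · obtain ⟨h, hh, hz⟩ := Finset.mem_biUnion.1 hz
        exact cf_mem (hY₀A h hh) z hz
    · intro p _ τ hUn hFr hint t c hO k' hsm
      have s1 : Z1 ⊆ Z1 ∪ Z2 ∪ Z3 ∪ S ∪ Y₀.biUnion cf := fun z hz =>
        Finset.mem_union_left _ (Finset.mem_union_left _ (Finset.mem_union_left _ (Finset.mem_union_left _ hz)))
      have s2 : Z2 ⊆ Z1 ∪ Z2 ∪ Z3 ∪ S ∪ Y₀.biUnion cf := fun z hz =>
        Finset.mem_union_left _ (Finset.mem_union_left _ (Finset.mem_union_left _ (Finset.mem_union_right _ hz)))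
      have s3 : Z3 ⊆ Z1 ∪ Z2 ∪ Z3 ∪ S ∪ Y₀.biUnion cf := fun z hz =>
        Finset.mem_union_left _ (Finset.mem_union_left _ (Finset.mem_union_right _ hz))
      have s4 : S ⊆ Z1 ∪ Z2 ∪ Z3 ∪ S ∪ Y₀.biUnion cf := fun z hz =>
        Finset.mem_union_left _ (Finset.mem_union_right _ hz)
      have hY₀i : ∀ h ∈ Y₀, ∀ u, ‖τ (coeff u h)‖ ≤ 1 := fun h hh => cf_int τ h fun z hz =>
        (hUn z (Finset.mem_union_right _ (Finset.mem_biUnion.2 ⟨h, hh, hz⟩))).1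
      obtain ⟨w, hw, hw1⟩ := hu p τ (unM hUn s4) (fpM hFr s4) t c hO k'
      have h3 : ∀ j : ℕ, ∀ y ∈ Y₀, ‖τ (eval (t (k' + (j + 1))) y)‖ < 1 := by
        intro j
        induction j with
        | zero =>
          intro y hy
          have := hred1 p τ (unM hUn s1) (t k') (hO.onB _) (hO.int _) (hO.unitD _)
            (fun q hq => hsm q (Finset.mem_union_left _ hq)) (bind₁ F y) (Finset.mem_image.2 ⟨y, hy, rfl⟩)
          rwa [eval_comp, ← hO.step] at this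
        | succ j ih' =>
          intro y hy
          have := hred2 p τ (unM hUn s2) (t (k' + (j + 1))) (hO.onB _) (hO.int _) (hO.unitD _)
            (fun q hq => ih' q (hQ2 q hq)) (bind₁ F y) (Finset.mem_image.2 ⟨y, hy, rfl⟩)
          rwa [eval_comp, ← hO.step] at this
      obtain ⟨c', rfl⟩ : ∃ c', c = c' + 1 := ⟨c - 1, by have := hO.pos; omega⟩
      have h4 : ∀ y ∈ Y₀, ‖τ (eval (t k') y)‖ < 1 := fun y hy =>
        small_congr τ y (hY₀i y hy) _ _ (hO.int k') (hO.int _) (fun i => by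
          rw [norm_sub_rev]
          exact hO.per k' i) (h3 c' y hy)
      have h5 := hred3 p τ (unM hUn s3) (t k') (hO.onB _) (hO.int _) (hO.unitD _) (by
        intro q hq
        rcases (hT q).1 (hQ3 q hq) with h6 | h6
        · exact hsm q (Finset.mem_union_right _ (Finset.mem_filter.2 ⟨hq, h6⟩))
        · exact h4 q h6) w hw
      exact h5.ne hw1

/-- **Block S**: on a periodic orbit of residues which are fixed by Frobenius, one of finitely many equations of a member of the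
family is a unit. `t k` the orbit, `c` its period modulo `p` (from the start on). -/
theorem fam_unit (A : Subfield ℂ) (hA : ∀ z : ℂ, IsAlgebraic A z → z ∈ A) (s : ℂ →+* ℂ) (hs : ∀ z ∈ A, s z ∈ A) {m : ℕ}
    (B : Set (MvPolynomial (Fin m) ℂ)) (hB : ∀ g ∈ B, ∀ u, coeff u g ∈ A) (D : Finset (MvPolynomial (Fin m) ℂ))
    (hD : ∀ g ∈ D, ∀ u, coeff u g ∈ A) (F : Fin m → MvPolynomial (Fin m) ℂ) (hF : ∀ i u, coeff u (F i) ∈ A)
    (Z : Set (MvPolynomial (Fin m) ℂ)) (hZ : Fam A s F B ↑D Z) :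
    ∃ (H : Finset (MvPolynomial (Fin m) ℂ)) (S : Finset ℂ), (∀ h ∈ H, h ∈ Z) ∧ (∀ z ∈ S, z ∈ A) ∧
      ∀ (p : ℕ) [Fact p.Prime] (τ : ℂ →+* PadicAlgCl p), Un τ S → FrobPlus s τ S →
        ∀ t : ℕ → Fin m → ℂ, (∀ k, t (k + 1) = ev F (t k)) → (∀ k, ∀ g ∈ B, eval (t k) g = 0) →
          (∀ k i, ‖τ (t k i)‖ ≤ 1) → (∀ k, ∃ g ∈ D, ‖τ (eval (t k) g)‖ = 1) →
          (∀ k i, ‖(τ (t k i)) ^ p - τ (t k i)‖ < 1) → ∀ c : ℕ, 1 ≤ c → (∀ k i, ‖τ (t (k + c) i) - τ (t k i)‖ < 1) →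
            ∀ k, ∃ h ∈ H, ‖τ (eval (t k) h)‖ = 1 := by
  obtain ⟨-, H, S, hH, hS, h⟩ := fam_pu A hA s hs B hB D hD F hF Z hZ
  exact ⟨H, S, hH, hS, fun p _ τ hUn hFr t h1 h2 h3 h4 h5 c h6 h7 => h p τ hUn hFr t c ⟨h1, h2, h3, h4, h5, h6, h7⟩⟩

end

end Pool.Agent.Helper11.V2
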